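import Pool.Agent.AT2.Stmts
import Pool.Agent.Helper82_K9.WBO
import Pool.Agent.Helper82_K9.TRB
import Pool.Agent.Helper53_K9.Tra
import Pool.Agent.Helper25_K9.PRG

/-!
# Squad AT2, row VJC: the values of the fixed characters
-/

open scoped BigOperators

noncomputable section

namespace Pool.Agent.PP.T2.H39

open Pool.Agent.Helper51_AWC Pool.Agent.Helper79_WRA Pool.Agent.PP Pool.Agent.PP.KF
open Pool.Agent.PP.K9 Pool.Agent.PP.K9.H97 Pool.Agent.PP.H75 Pool.Agent.PP.T3

attribute [local instance] Ideal.Quotient.field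

theorem reg_coe' {ℓ : ℕ} {G : Type} [Group G] {C : Subgroup G} {s : C} (hs : Reg ℓ s) :
    Reg ℓ (s : G) := by
  unfold Reg at hs ⊢
  rwa [Subgroup.orderOf_coe]

theorem vjc : VjcStmt := by
  intro ℓ _ M _ hM G _ _ N hN u hu b hb χ hχ hfix j j' hj hjj
  obtain ⟨k, hk⟩ := hN.gen j j' hj hjj
  unfold gv gbv
  refine finsum_congr fun c => ?_
  by_cases hc : Reg ℓ c
  · have hc' : Reg ℓ (c : G) := reg_coe' hc
    have hcomm : Commute u (c : G) := (Subgroup.mem_centralizer_singleton_iff.1 c.2).symm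
    have key : ∀ i : ℕ, χ ((u ^ j) ^ N ^ i * c) = χ (u ^ j * c) := by
      intro i
      induction i with
      | zero => rw [pow_zero, pow_one]
      | succ i ih =>
        have h1 : Commute ((u ^ j) ^ N ^ i) (c : G) := (hcomm.pow_left j).pow_left _
        rw [← ih, ← hfix ((u ^ j) ^ N ^ i * c), h1.mul_pow, hN.reg c hc', ← pow_mul (u ^ j),
          ← pow_succ]
    rw [← hk u hu, key]
  · have := Fintype.ofFinite (Cu u)
    rw [H25.eh_sing (H82W.wbo (H82.trb H53.tra)) ℓ M hM _ hb.idem c hc, zero_mul, zero_mul]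

end Pool.Agent.PP.T2.H39
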