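import Pool.Agent.AT2.Stmts
import Pool.Agent.Helper34_K9.INX

/-!
# Squad AT2, row LB2: the bound for the number of modular characters
-/

open scoped BigOperators

noncomputable section

namespace Pool.Agent.PP.T2.H39

open Pool.Agent.Helper51_AWC Pool.Agent.Helper79_WRA Pool.Agent.PP Pool.Agent.PP.KF
open Pool.Agent.PP.K9 Pool.Agent.PP.K9.H97 Pool.Agent.PP.H75 Pool.Agent.PP.T3

attribute [local instance] Ideal.Quotient.field

theorem lb2 (hPR : Pr2Stmt) (hU1 : Ux1Stmt) (hU2 : Ux2Stmt) (hFX : FxsStmt) (hST : StgStmt)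
    (hBN : Bn2Stmt) : Lb2Stmt := by
  intro ℓ _ M _ hM h2 G _ _ e V γ hL a hT
  have hpr : ℓ.Prime := Fact.out
  have hF : GoodF ℓ (FF M) := H50.fld ℓ Fact.out M hM
  obtain ⟨N, hN⟩ := hPR ℓ h2 G
  have hix : ¬ ℓ ∣ ix V γ :=
    H34.inx ℓ M hM G e hL.blk V hL.tp hL.ab γ hL.gam.supp hL.gam.blk hL.und
  obtain ⟨u, hu, hua⟩ : ∃ u : G, Rg V γ u ∧ orderOf u = ℓ ^ a := by
    rcases hT.gen with h | h
    · exact hU1 ℓ (FF M) hF G e V γ hL a hT.pos hT.exp h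
    · exact hU2 ℓ (FF M) hF G e V γ hL a hT.pos hT.exp hT.small hix h
  have h3 := hFX ℓ M hM G N hN e hL.blk.1 (fun y hy hy2 b hb heb g hg =>
    hST ℓ M hM G N hN e V γ hL y hy hy2 b hb heb g hg)
  have h4 := hBN ℓ M hM G N hN e V γ hL u a hu hT.pos hua
  obtain ⟨k, hk⟩ := (IsPGroup.iff_card.1 hL.tp.pg)
  have h5 := hT.small
  rw [hk] at h5 h4
  have h6 : k < 2 * a := (Nat.pow_lt_pow_iff_right hpr.one_lt).1 h5
  have h7 : ln e * ℓ ^ (a - 1) ≤ ℓ ^ a * ℓ ^ (a - 1) := by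
    calc ln e * ℓ ^ (a - 1) ≤ _ := Nat.mul_le_mul_right _ h3
      _ ≤ ℓ ^ k := h4
      _ ≤ ℓ ^ (a + (a - 1)) := Nat.pow_le_pow_right hpr.pos (by have := hT.pos; omega)
      _ = ℓ ^ a * ℓ ^ (a - 1) := pow_add _ _ _
  exact Nat.le_of_mul_le_mul_right h7 (pow_pos hpr.pos _)

end Pool.Agent.PP.T2.H39
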